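import Pool.Agent.Helper49.HE.StmtP

/-!
# MP_e5f486_ag, Q1 for dg algebras with smooth homology algebra

`k` is a field of characteristic `0`, `G` a linearly reductive group (`D : RedGroup k G`), `(R, d)` a dg algebra with a
rational action of `G` by automorphisms (`RatR`, `IsDG`), in any range of degrees, not nec. formal.  `L` is the homology algebra
of `R` (`IsHL`).  `L` is finitely generated, finite over its centre and smooth as an algebra without grading (finite projective
dimension over `L ⊗ Lᵒᵖ`), and all algebras `(L ⊗ End V)^G` are finite-dimensional (`PropR`), that is, `Perf^G(R)` is proper.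

Then the Hochschild homology of the dg category of the equivariant modules `R ⊗ V`, whose perfect hull is `Perf^G(R)`,
vanishes in all degrees `≠ 0`, and every Hochschild cycle extends to a cycle of `(C[[u]], ∂ + u B)` for every operator `B` which
makes the Hochschild complex `(C, ∂)` a mixed complex: the Hodge-de Rham spectral sequence degenerates at the first page.

Proof.  The complex is filtered by the number of letters; by a `G`-equivariant contraction of `R` to `L` the problem is
reduced to the Hochschild homology of the graded category of the `L ⊗ V`.  In odd internal degrees this is the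
Hochschild homology of the category without grading (degree zero theorem for `L`), in even internal degrees it is the one
twisted by the parity, which is a part of the Hochschild homology for the group `G × {1, -1}` (degree zero theorem for this
group).  In length one the derivation given by the degree is used.
-/

set_option autoImplicit false

namespace Pool.Agent.Results.MP_e5f486_ag.DGSmoothHomology

open Pool.Agent.Helper44.HD Pool.Agent.Helper49.HE Pool.Agent.Helper49.HE.Stmt CategoryTheory

/-- Hodge-de Rham degeneration for `Perf^G(R)`, `R` a dg algebra with smooth homology algebra `L` -/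
theorem result (k G R L : Type) [Field k] [CharZero k] [Group G]
    [Ring R] [Algebra k R] [MulSemiringAction G R] [SMulCommClass G k R]
    [Ring L] [Algebra k L] [MulSemiringAction G L] [SMulCommClass G k L]
    (D : RedGroup k G) (hrat : RatR D R)
    (𝓡 : ℤ → Submodule k R) [GradedAlgebra 𝓡] (d : R →ₗ[k] R) (hd : IsDG G 𝓡 d)
    (𝓛 : ℤ → Submodule k L) [GradedAlgebra 𝓛] (pr : R → L) (hL : IsHL G 𝓡 d 𝓛 pr)
    (hfg : (⊤ : Subalgebra k L).FG) (hcen : Module.Finite (Subalgebra.center k L) L)
    (hsm : ∃ n : ℕ, HasProjectiveDimensionLT (ModuleCat.of (Gam k L) (RBi L)) n)
    (hprop : PropR D L) :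
    IsCx 𝓡 D d ∧ ExactT 𝓡 D d ∧ DegenT 𝓡 D d :=
  ⟨isCx 𝓡 hd hL hrat, exactT 𝓡 hd hL hrat hfg hcen hsm hprop,
    degenT 𝓡 hd hL hrat hfg hcen hsm hprop⟩

end Pool.Agent.Results.MP_e5f486_ag.DGSmoothHomology
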